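import Pool.Agent.H435R3.Paley.All
import Pool.Agent.H435R3.HBK.App

/-!
# Sumsets inside the quadratic residues: `B` invariant under a subgroup, `A` with few sums `A + C`
-/

set_option autoImplicit false

namespace Pool.Agent.Results.MP_4600d4_nt.InvariantFewSums

open Finset Pool.Agent.H435R3.Paley

open scoped Pointwise

open Classical in
theorem result :
    ∀ ε : ℝ, 0 < ε → ∃ p₀ : ℕ, ∀ (p : ℕ) [Fact p.Prime], p₀ ≤ p →
      ∀ (H : Subgroup (ZMod p)ˣ) (A B C : Finset (ZMod p)), C.Nonempty →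
        (∀ h ∈ H, ∀ b ∈ B, (h : ZMod p) * b ∈ B) →
        (p : ℝ) ^ (0.49 : ℝ) ≤ A.card → (p : ℝ) ^ (0.49 : ℝ) ≤ B.card →
        ((A + C).card : ℝ) * (p : ℝ) ^ (1 / 2 + ε) ≤ A.card * C.card * Nat.card H →
        ((A + C).card : ℝ) * (p : ℝ) ^ (1 + ε) ≤
          (A.card : ℝ) ^ 2 * (Nat.card H : ℝ) ^ (4 / 3 : ℝ) →
        ∃ a ∈ A, ∃ b ∈ B, ¬ (a + b ≠ 0 ∧ IsSquare (a + b)) := by
  intro ε₀ hε₀
  obtain ⟨ε, hε⟩ : ∃ ε : ℝ, ε = min ε₀ (1 / 4) := ⟨_, rfl⟩
  have hεpos : 0 < ε := hε ▸ lt_min hε₀ (by norm_num)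
  have hε1 : ε ≤ ε₀ := hε ▸ min_le_left _ _
  have hε2 : ε ≤ 1 / 4 := hε ▸ min_le_right _ _
  obtain ⟨δ, hδ, h⟩ := Pool.Agent.H435R3.HBK.mixed ε hεpos
  obtain ⟨p₁, hp₁⟩ := h (fun r => 2 * r) (fun r => by positivity)
  obtain ⟨p₂, hp₂2, hp₂⟩ := exists_large 2 δ hδ
  obtain ⟨p₃, hp₃2, hp₃⟩ := exists_large 2 (0.1 : ℝ) (by norm_num)
  refine ⟨max (max p₁ 3) (max p₂ p₃), fun p _ hp H A B C hC hinv hA hB h1 h2 => ?_⟩
  have hpa : p₁ ≤ p := ((le_max_left _ _).trans (le_max_left _ _)).trans hp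
  have hp3 : 3 ≤ p := ((le_max_right _ _).trans (le_max_left _ _)).trans hp
  have hpb : p₂ ≤ p := ((le_max_left _ _).trans (le_max_right _ _)).trans hp
  have hpc : p₃ ≤ p := ((le_max_right _ _).trans (le_max_right _ _)).trans hp
  have hpp : p.Prime := Fact.out
  have hp0 : (0 : ℝ) < p := by exact_mod_cast hpp.pos
  have hp1 : (1 : ℝ) ≤ p := by exact_mod_cast hpp.one_le
  by_contra hcon
  push Not at hcon
  -- the quadratic character
  have hchar : ringChar (ZMod p) ≠ 2 := by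
    rw [ZMod.ringChar_zmod_n]
    omega
  set χ : DirichletCharacter ℂ p :=
    (quadraticChar (ZMod p)).ringHomComp (Int.castRingHom ℂ) with hχdef
  have hχ : χ ≠ 1 := by
    rw [hχdef]
    exact (MulChar.ringHomComp_ne_one_iff (Int.castRingHom ℂ).injective_int).2
      (quadraticChar_ne_one hchar)
  have hval : ∀ a ∈ A, ∀ b ∈ B, χ (a + b) = 1 := by
    intro a ha b hb
    obtain ⟨h3, h4⟩ := hcon a ha b hb
    rw [hχdef, MulChar.ringHomComp_apply, (quadraticChar_one_iff_isSquare h3).2 h4]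
    simp
  have hsum : ∑ a ∈ A, ∑ b ∈ B, χ (a + b) = (A.card : ℂ) * B.card := by
    rw [sum_congr rfl fun a ha => sum_congr rfl fun b hb => hval a ha b hb]
    simp
  have hnorm : ‖∑ a ∈ A, ∑ b ∈ B, χ (a + b)‖ = (A.card : ℝ) * B.card := by
    rw [hsum, norm_mul, Complex.norm_natCast, Complex.norm_natCast]
  have hApos : (0 : ℝ) < A.card := lt_of_lt_of_le (by positivity) hA
  have hBpos : (0 : ℝ) < B.card := lt_of_lt_of_le (by positivity) hB
  have hABpos : (0 : ℝ) < (A.card : ℝ) * B.card := mul_pos hApos hBpos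
  by_cases hH : Nat.card H ^ 4 < p ^ 3
  · have hpow1 : (p : ℝ) ^ (1 / 2 + ε) ≤ (p : ℝ) ^ (1 / 2 + ε₀) :=
      Real.rpow_le_rpow_of_exponent_le hp1 (by linarith)
    have hpow2 : (p : ℝ) ^ (1 + ε) ≤ (p : ℝ) ^ (1 + ε₀) :=
      Real.rpow_le_rpow_of_exponent_le hp1 (by linarith)
    have hpow3 : (p : ℝ) ^ ε ≤ (p : ℝ) ^ (0.49 : ℝ) :=
      Real.rpow_le_rpow_of_exponent_le hp1 (by norm_num; linarith)
    have h5 := hp₁ p hpa χ (good_all p χ hχ) H A B C hH hinv hC (hpow3.trans hB)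
      ((mul_le_mul_of_nonneg_left hpow1 (Nat.cast_nonneg _)).trans h1)
      ((mul_le_mul_of_nonneg_left hpow2 (Nat.cast_nonneg _)).trans h2)
    rw [hnorm] at h5
    have h6 : (p : ℝ) ^ (-δ) ≤ 1 / 2 := by
      rw [Real.rpow_neg hp0.le, one_div]
      exact inv_anti₀ (by norm_num) (hp₂ p hpb)
    nlinarith
  · push Not at hH
    -- then `|B| ≥ |H| ≥ p ^ (3/4)`
    have hT0 : (0 : ZMod p) ∉ ({1} : Finset (ZMod p)) := by
      rw [mem_singleton]
      exact zero_ne_one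
    have h5 := elementary χ hχ A B {1} hT0
    rw [sum_singleton] at h5
    have h6 : dsum χ A B 1 = ∑ a ∈ A, ∑ b ∈ B, χ (a + b) := by
      unfold dsum
      simp
    rw [h6, hnorm] at h5
    have h7 : energy A {1} ≤ A.card * ({1} : Finset (ZMod p)).card * 1 := by
      refine energy_le _ _ _ fun a ha t ht => ?_
      rw [mem_singleton] at ht
      subst ht
      rw [card_le_one]
      intro w hw w' hw'
      rw [mem_filter, mem_product, mem_singleton] at hw hw'
      refine Prod.ext ?_ (hw.1.2.trans hw'.1.2.symm)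
      have e1 := hw.2
      have e2 := hw'.2
      rw [hw.1.2, mul_one, mul_one] at e1
      rw [hw'.1.2, mul_one, mul_one] at e2
      rw [← e1, ← e2]
    rw [card_singleton, mul_one, mul_one] at h7
    have h8 : ((A.card : ℝ) * B.card) ^ 2 ≤ p * (A.card * B.card) := by
      refine h5.trans ?_
      have h9 : (energy A {1} : ℝ) ≤ A.card := by exact_mod_cast h7
      calc (p : ℝ) * B.card * energy A {1} ≤ p * B.card * A.card :=
            mul_le_mul_of_nonneg_left h9 (by positivity)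
        _ = _ := by ring
    have h9 : (A.card : ℝ) * B.card ≤ p := by
      have h10 : ((A.card : ℝ) * B.card) * ((A.card : ℝ) * B.card) ≤
          p * ((A.card : ℝ) * B.card) := by
        rw [← sq]
        exact h8
      exact le_of_mul_le_mul_right h10 hABpos
    have hB1 : ∃ b ∈ B, b ≠ 0 := by
      by_contra hall
      push Not at hall
      have h10 : B ⊆ {0} := fun b hb => by
        rw [mem_singleton]
        exact hall b hb
      have h11 : B.card ≤ 1 := (card_le_card h10).trans (by simp)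
      have h12 : (B.card : ℝ) ≤ 1 := by exact_mod_cast h11
      have h13 : (p : ℝ) ^ (0.1 : ℝ) ≤ (p : ℝ) ^ (0.49 : ℝ) :=
        Real.rpow_le_rpow_of_exponent_le hp1 (by norm_num)
      have h14 := hp₃ p hpc
      linarith
    obtain ⟨b, hb, hb0⟩ := hB1
    have hHB : Nat.card H ≤ B.card := by
      have h10 : ((univ.filter fun h : (ZMod p)ˣ => h ∈ H).image
          (fun h : (ZMod p)ˣ => (h : ZMod p) * b)) ⊆ B := by
        intro x hx
        rw [mem_image] at hx
        obtain ⟨h, hh, rfl⟩ := hx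
        exact hinv h (mem_filter.1 hh).2 b hb
      have h11 := card_le_card h10
      rw [card_image_of_injective _ (fun x y hxy =>
        Units.val_injective (mul_right_cancel₀ hb0 hxy))] at h11
      rw [Nat.card_eq_fintype_card, Fintype.card_subtype]
      exact h11
    have h10 : (p : ℝ) ^ (3 / 4 : ℝ) ≤ B.card := by
      have e1 : (p : ℝ) ^ 3 ≤ (B.card : ℝ) ^ 4 := by
        calc (p : ℝ) ^ 3 ≤ (Nat.card H : ℝ) ^ 4 := by exact_mod_cast hH
          _ ≤ (B.card : ℝ) ^ 4 := pow_le_pow_left₀ (Nat.cast_nonneg _) (by exact_mod_cast hHB) 4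
      have e2 : ((p : ℝ) ^ (3 / 4 : ℝ)) ^ 4 = (p : ℝ) ^ 3 := by
        rw [← Real.rpow_natCast ((p : ℝ) ^ (3 / 4 : ℝ)) 4, ← Real.rpow_mul hp0.le,
          ← Real.rpow_natCast (p : ℝ) 3]
        norm_num
      rw [← e2] at e1
      exact (pow_le_pow_iff_left₀ (by positivity) hBpos.le (by norm_num : (4 : ℕ) ≠ 0)).1 e1
    have h11 : (p : ℝ) ^ (0.1 : ℝ) * p ≤ A.card * B.card := by
      calc (p : ℝ) ^ (0.1 : ℝ) * p = (p : ℝ) ^ (1.1 : ℝ) := by
            rw [← Real.rpow_add_one hp0.ne']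
            norm_num
        _ ≤ (p : ℝ) ^ ((0.49 : ℝ) + 3 / 4) :=
            Real.rpow_le_rpow_of_exponent_le hp1 (by norm_num)
        _ = (p : ℝ) ^ (0.49 : ℝ) * (p : ℝ) ^ (3 / 4 : ℝ) := Real.rpow_add hp0 _ _
        _ ≤ _ := mul_le_mul hA h10 (by positivity) hApos.le
    have h12 := hp₃ p hpc
    nlinarith

end Pool.Agent.Results.MP_4600d4_nt.InvariantFewSums
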